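import Pool.Agent.Lib_MP_e211d6_h89.Geom

/-!
# Partitions with few critical points

Every set `S` of at least `d + 4` points of `ℝ^d` splits into two parts whose convex hulls still meet
after the deletion of any one point of `S`, with at most `2 d + 3 - |S|` exceptions.
-/

namespace Pool.Agent.Results.MP_e211d6_co.AlmostTolerant

open Pool.Agent.MP_e211d6_h89

/-- the case of at most `2 d + 3` points -/
theorem small (d : ℕ) (S : Finset (EuclideanSpace ℝ (Fin d))) (hS : d + 4 ≤ S.card)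
    (hS' : S.card ≤ 2 * d + 3) :
    ∃ A ⊆ S, ∃ Z : Finset (EuclideanSpace ℝ (Fin d)), Z.card ≤ 2 * d + 3 - S.card ∧
      ∀ x ∈ S, x ∉ Z → (convexHull ℝ ((A : Set (EuclideanSpace ℝ (Fin d))) \ {x}) ∩
        convexHull ℝ (((S : Set (EuclideanSpace ℝ (Fin d))) \ A) \ {x})).Nonempty := by
  classical
  have hcard : Fintype.card S = S.card := Fintype.card_coe S
  obtain ⟨A, F, hF, hW⟩ := good_config (fun i : S => (i : EuclideanSpace ℝ (Fin d)))
    (s := S.card - (d + 1)) (by omega) (by rw [hcard]; omega) (by rw [hcard]; omega)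
  have hinj : Function.Injective fun i : S => (i : EuclideanSpace ℝ (Fin d)) :=
    Subtype.val_injective
  refine ⟨A.image fun i : S => (i : EuclideanSpace ℝ (Fin d)), ?_,
    Fᶜ.image fun i : S => (i : EuclideanSpace ℝ (Fin d)), ?_, fun x hx hxZ => ?_⟩
  · intro p hp
    obtain ⟨i, -, rfl⟩ := Finset.mem_image.1 hp
    exact i.2
  · rw [Finset.card_image_of_injective _ hinj, Finset.card_compl, hcard]
    omega
  · have hxF : (⟨x, hx⟩ : S) ∈ F := by
      by_contra hcon
      exact hxZ (Finset.mem_image.2 ⟨⟨x, hx⟩, Finset.mem_compl.2 hcon, rfl⟩)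
    refine (hW _ hxF).hull.mono (Set.inter_subset_inter (convexHull_mono ?_) (convexHull_mono ?_))
    · rintro p ⟨i, ⟨hi, hix⟩, rfl⟩
      refine ⟨Finset.mem_coe.2 (Finset.mem_image.2 ⟨i, hi, rfl⟩), fun hh => hix ?_⟩
      exact Subtype.ext (Set.mem_singleton_iff.1 hh)
    · rintro p ⟨i, ⟨hi, hix⟩, rfl⟩
      refine ⟨⟨Finset.mem_coe.2 i.2, fun hh => hi ?_⟩, fun hh => hix ?_⟩
      · obtain ⟨j, hj, hji⟩ := Finset.mem_image.1 (Finset.mem_coe.1 hh)
        rwa [← hinj hji]
      · exact Subtype.ext (Set.mem_singleton_iff.1 hh)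

/-- Every set `S` of at least `d + 4` points of `ℝ^d` has a partition into `A` and `S \ A` such that
`conv (A \ {x})` and `conv ((S \ A) \ {x})` meet for all points `x` of `S` outside a set `Z` of at most
`2 d + 3 - |S|` points (none if `|S| ≥ 2 d + 3`). -/
theorem result (d : ℕ) (S : Finset (EuclideanSpace ℝ (Fin d))) (hS : d + 4 ≤ S.card) :
    ∃ A ⊆ S, ∃ Z : Finset (EuclideanSpace ℝ (Fin d)), Z.card ≤ 2 * d + 3 - S.card ∧
      ∀ x ∈ S, x ∉ Z → (convexHull ℝ ((A : Set (EuclideanSpace ℝ (Fin d))) \ {x}) ∩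
        convexHull ℝ (((S : Set (EuclideanSpace ℝ (Fin d))) \ A) \ {x})).Nonempty := by
  rcases le_or_gt S.card (2 * d + 3) with h | h
  · exact small d S hS h
  · have hd : 1 ≤ d := by
      by_contra hd
      have hd0 : d = 0 := by omega
      subst hd0
      have : S.card ≤ 1 := Finset.card_le_one.2 fun a _ b _ => Subsingleton.elim a b
      omega
    obtain ⟨S0, hS0, hS0c⟩ := Finset.exists_subset_card_eq h.le
    obtain ⟨A, hA, Z, hZ, hW⟩ := small d S0 (by omega) (by omega)
    have hZ0 : Z = ∅ := by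
      rw [← Finset.card_eq_zero]
      omega
    have hmono : ∀ x, ((S0 : Set (EuclideanSpace ℝ (Fin d))) \ A) \ {x} ⊆
        ((S : Set (EuclideanSpace ℝ (Fin d))) \ A) \ {x} := fun x p hp =>
      ⟨⟨Finset.mem_coe.2 (hS0 (Finset.mem_coe.1 hp.1.1)), hp.1.2⟩, hp.2⟩
    refine ⟨A, hA.trans hS0, ∅, by simp, fun x hx _ => ?_⟩
    by_cases hx0 : x ∈ S0
    · exact (hW x hx0 (by simp [hZ0])).mono
        (Set.inter_subset_inter le_rfl (convexHull_mono (hmono x)))
    · -- `x` is not one of the selected points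
      have hne : S0.Nonempty := by
        rw [← Finset.card_pos]
        omega
      obtain ⟨y, hy⟩ := hne
      refine (hW y hy (by simp [hZ0])).mono
        (Set.inter_subset_inter (convexHull_mono ?_) (convexHull_mono ?_))
      · rintro p ⟨hp, -⟩
        refine ⟨hp, fun hh => hx0 ?_⟩
        rw [← Set.mem_singleton_iff.1 hh]
        exact hA (Finset.mem_coe.1 hp)
      · rintro p ⟨⟨hp, hpA⟩, -⟩
        refine ⟨⟨Finset.mem_coe.2 (hS0 (Finset.mem_coe.1 hp)), hpA⟩, fun hh => hx0 ?_⟩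
        rw [← Set.mem_singleton_iff.1 hh]
        exact Finset.mem_coe.1 hp

end Pool.Agent.Results.MP_e211d6_co.AlmostTolerant
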