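import Pool.Agent.Lib_MP_e211d6_la.Main

/-!
# Larman's problem for Lawrence configurations

The exact size at which all Lawrence configurations of points in `ℝ^d` have a partition into two
parts with tolerance one.
-/

namespace Pool.Agent.Results.MP_e211d6_co.LawrenceExact

open Pool.Agent.MP_e211d6_la

/-- `S` is a Lawrence configuration: it can be listed as `x 0, …, x (n - 1)` without repetition in such
a way that, for a table `a` of signs with `d + 1` rows, the determinant of any `d + 1` of the vectors
`(1, x j)`, taken in the order of the list, has the sign `∏ k, a k (i k)`, where `i k` is the index of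
the `k`-th of them. -/
def IsLawrence {d : ℕ} (S : Finset (EuclideanSpace ℝ (Fin d))) : Prop :=
  ∃ (n : ℕ) (x : Fin n → EuclideanSpace ℝ (Fin d)), Function.Injective x ∧
    Finset.univ.image x = S ∧
    ∃ a : Fin (d + 1) → Fin n → ℝ, (∀ k j, a k j = 1 ∨ a k j = -1) ∧
      ∀ i : Fin (d + 1) → Fin n, StrictMono i →
        0 < (∏ k, a k (i k)) * Matrix.det (Matrix.of fun k l : Fin (d + 1) =>
          (Fin.cons 1 (fun m => x (i k) m) : Fin (d + 1) → ℝ) l)

/-- `S` has a partition into two parts `A`, `S \ A` whose convex hulls meet after the deletion of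
any set `Y` of at most one point. -/
def HasTolerantPartition {d : ℕ} (S : Finset (EuclideanSpace ℝ (Fin d))) : Prop :=
  ∃ A ⊆ S, ∀ Y ⊆ S, Y.card ≤ 1 →
    (convexHull ℝ ((A \ Y : Finset (EuclideanSpace ℝ (Fin d))) : Set (EuclideanSpace ℝ (Fin d))) ∩
      convexHull ℝ (((S \ A) \ Y : Finset (EuclideanSpace ℝ (Fin d))) :
        Set (EuclideanSpace ℝ (Fin d)))).Nonempty

theorem exists_lawrence (d : ℕ) (hd : 1 ≤ d) (n : ℕ) :
    (Finset.univ.image fun j : Fin n => pt d j).card = n ∧
      IsLawrence (Finset.univ.image fun j : Fin n => pt d j) := by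
  have hinj : Function.Injective fun j : Fin n => pt d j :=
    fun i j h => Fin.ext (pt_injective d hd h)
  refine ⟨by rw [Finset.card_image_of_injective _ hinj, Finset.card_univ, Fintype.card_fin],
    n, fun j => pt d j, hinj, rfl, fun k j => sg (adv k j), fun k j => sg_pm _, ?_⟩
  exact fun i hi => lawrence_pt d n i hi

/-- In `ℝ^d`, `d ≥ 1`, there are Lawrence configurations of every size `n`, and all those of size `n`
have a partition into two parts with tolerance one if and only if `3 n ≥ 5 d + 10`. -/
theorem result (d : ℕ) (hd : 1 ≤ d) (n : ℕ) :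
    (∃ S : Finset (EuclideanSpace ℝ (Fin d)), S.card = n ∧ IsLawrence S) ∧
    ((∀ S : Finset (EuclideanSpace ℝ (Fin d)), S.card = n → IsLawrence S →
      HasTolerantPartition S) ↔ 5 * d + 10 ≤ 3 * n) := by
  classical
  refine ⟨⟨_, exists_lawrence d hd n⟩, ⟨fun H => ?_, fun hn S hS hL => ?_⟩⟩
  · by_contra hlt
    obtain ⟨h1, h2⟩ := exists_lawrence d hd n
    obtain ⟨A, hA, hY⟩ := H _ h1 h2
    rcases Nat.eq_zero_or_pos n with rfl | hn
    · obtain ⟨p, hp, -⟩ := hY ∅ (Finset.empty_subset _) (by simp)
      have : A = ∅ := by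
        rw [Finset.eq_empty_iff_forall_notMem]
        intro q hq
        simpa using hA hq
      rw [this] at hp
      simp at hp
    · obtain ⟨y, hy⟩ := lower d (n - 1) (by omega) (A : Set (EuclideanSpace ℝ (Fin d)))
      have hmem : ∀ q ∈ (Finset.univ.image fun j : Fin n => pt d j), ∃ j ≤ n - 1, q = pt d j := by
        intro q hq
        obtain ⟨j, -, rfl⟩ := Finset.mem_image.1 hq
        exact ⟨j, by have := j.2; omega, rfl⟩
      rcases hy with hy | ⟨i, hi, hy⟩
      · refine nosep _ _ y ?_ ?_ (hY ∅ (Finset.empty_subset _) (by simp))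
        · intro p hp
          have hp' : p ∈ A := by simpa using hp
          obtain ⟨j, hj, rfl⟩ := hmem p (hA hp')
          exact (hy j hj).1 hp'
        · intro p hp
          have hp' : p ∈ (Finset.univ.image fun j : Fin n => pt d j) \ A := by simpa using hp
          obtain ⟨hp1, hp2⟩ := Finset.mem_sdiff.1 hp'
          obtain ⟨j, hj, rfl⟩ := hmem p hp1
          exact (hy j hj).2 hp2
      · refine nosep _ _ y ?_ ?_ (hY {pt d i} ?_ (by simp))
        · intro p hp
          have hp' : p ∈ A \ {pt d i} := by simpa using hp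
          obtain ⟨hp1, hp2⟩ := Finset.mem_sdiff.1 hp'
          obtain ⟨j, hj, rfl⟩ := hmem p (hA hp1)
          refine (hy j hj ?_).1 hp1
          rintro rfl
          exact hp2 (Finset.mem_singleton_self _)
        · intro p hp
          have hp' : p ∈ ((Finset.univ.image fun j : Fin n => pt d j) \ A) \ {pt d i} := by
            simpa using hp
          obtain ⟨hp1, hp2⟩ := Finset.mem_sdiff.1 hp'
          obtain ⟨hp3, hp4⟩ := Finset.mem_sdiff.1 hp1
          obtain ⟨j, hj, rfl⟩ := hmem p hp3
          refine (hy j hj ?_).2 hp4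
          rintro rfl
          exact hp2 (Finset.mem_singleton_self _)
        · rw [Finset.singleton_subset_iff]
          exact Finset.mem_image.2 ⟨⟨i, by omega⟩, Finset.mem_univ _, rfl⟩
  · obtain ⟨n', x, hx, rfl, a, ha, hdet⟩ := hL
    have hn' : n' = n := by
      rw [← hS, Finset.card_image_of_injective _ hx, Finset.card_univ, Fintype.card_fin]
    subst hn'
    obtain ⟨τ, hτ⟩ := upper x hx a ha hdet hn
    refine ⟨(Finset.univ.filter fun j => τ j = true).image x,
      Finset.image_subset_image (Finset.filter_subset _ _), fun Y _ hYc => ?_⟩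
    have hY : (Y : Set (EuclideanSpace ℝ (Fin d))).Subsingleton := by
      intro p hp q hq
      exact Finset.card_le_one.1 hYc p hp q hq
    have h1 : ((((Finset.univ.filter fun j => τ j = true).image x) \ Y :
        Finset (EuclideanSpace ℝ (Fin d))) : Set (EuclideanSpace ℝ (Fin d))) =
        x '' {j | τ j = true} \ (Y : Set (EuclideanSpace ℝ (Fin d))) := by
      ext p
      simp
    have h2 : ((((Finset.univ.image x) \ ((Finset.univ.filter fun j => τ j = true).image x)) \ Y :
        Finset (EuclideanSpace ℝ (Fin d))) : Set (EuclideanSpace ℝ (Fin d))) =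
        x '' {j | τ j = false} \ (Y : Set (EuclideanSpace ℝ (Fin d))) := by
      ext p
      simp only [Finset.coe_sdiff, Finset.coe_image, Finset.coe_univ, Set.image_univ,
        Finset.coe_filter, Finset.mem_univ, true_and, Set.mem_sdiff, Set.mem_range, Set.mem_image,
        Set.mem_ofPred_eq]
      refine and_congr_left fun _ => ⟨?_, ?_⟩
      · rintro ⟨⟨j, rfl⟩, h⟩
        refine ⟨j, ?_, rfl⟩
        by_contra hc
        exact h ⟨j, by simpa using hc, rfl⟩
      · rintro ⟨j, hj, rfl⟩
        refine ⟨⟨j, rfl⟩, ?_⟩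
        rintro ⟨i, hi, hij⟩
        rw [hx hij, hj] at hi
        exact Bool.false_ne_true hi
    rw [h1, h2]
    exact hτ Y hY

end Pool.Agent.Results.MP_e211d6_co.LawrenceExact
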