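import Pool.Agent.Lib_MP_e211d6_h89.Assoc

/-!
# Self-dual sets of `2 d + 2` points have a partition of tolerance one
-/

namespace Pool.Agent.Results.MP_e211d6_co.SelfDual

open Pool.Agent.MP_e211d6_h89

/-- the convex hulls of `A` and `B` meet -/
def Meet {d : ℕ} (A B : Set (EuclideanSpace ℝ (Fin d))) : Prop :=
  (convexHull ℝ A ∩ convexHull ℝ B).Nonempty

/-- For some subset `G` of `S` the map `A ↦ A ∆ G` exchanges the subsets of `S` whose convex hull meets
that of their complement in `S` and the other subsets of `S`. -/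
def IsSelfDual {d : ℕ} (S : Finset (EuclideanSpace ℝ (Fin d))) : Prop :=
  ∃ G : Set (EuclideanSpace ℝ (Fin d)), G ⊆ S ∧ ∀ A : Set (EuclideanSpace ℝ (Fin d)), A ⊆ S →
    (Meet A (S \ A) ↔ ¬ Meet (symmDiff A G) (S \ symmDiff A G))

/-- `S` has a partition into two parts of tolerance one. -/
def HasTolerantPartition {d : ℕ} (S : Finset (EuclideanSpace ℝ (Fin d))) : Prop :=
  ∃ A : Set (EuclideanSpace ℝ (Fin d)), A ⊆ S ∧ ∀ x ∈ S, Meet (A \ {x}) ((S \ A) \ {x})

/-- Any `d + 1` points of `S` are affinely independent. -/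
def IsGeneral {d : ℕ} (S : Finset (EuclideanSpace ℝ (Fin d))) : Prop :=
  ∀ T ⊆ S, T.card = d + 1 → AffineIndependent ℝ (fun p : T => (p : EuclideanSpace ℝ (Fin d)))

/-- `S` is self-associated: there are weights on `S`, not all zero, which annihilate all products of
two affine functions. -/
def IsSelfAssociated {d : ℕ} (S : Finset (EuclideanSpace ℝ (Fin d))) : Prop :=
  ∃ c : EuclideanSpace ℝ (Fin d) → ℝ, (∃ p ∈ S, c p ≠ 0) ∧
    ∀ f g : EuclideanSpace ℝ (Fin d) →ᵃ[ℝ] ℝ, ∑ p ∈ S, c p * f p * g p = 0

open Classical in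
/-- the index set of a set of points -/
noncomputable def idx {d : ℕ} (S : Finset (EuclideanSpace ℝ (Fin d)))
    (A : Set (EuclideanSpace ℝ (Fin d))) : Finset S :=
  Finset.univ.filter fun i => (i : EuclideanSpace ℝ (Fin d)) ∈ A

open Classical in
theorem hm_iff {d : ℕ} {S : Finset (EuclideanSpace ℝ (Fin d))}
    {A B : Set (EuclideanSpace ℝ (Fin d))} {A' B' : Finset S} (hA : A ⊆ S) (hB : B ⊆ S)
    (hA' : ∀ i : S, i ∈ A' ↔ (i : EuclideanSpace ℝ (Fin d)) ∈ A)
    (hB' : ∀ i : S, i ∈ B' ↔ (i : EuclideanSpace ℝ (Fin d)) ∈ B) :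
    HM (fun i : S => (i : EuclideanSpace ℝ (Fin d))) A' B' ↔ Meet A B := by
  have key : ∀ (A : Set (EuclideanSpace ℝ (Fin d))) (A' : Finset S), A ⊆ S →
      (∀ i : S, i ∈ A' ↔ (i : EuclideanSpace ℝ (Fin d)) ∈ A) →
      (fun i : S => (i : EuclideanSpace ℝ (Fin d))) '' (A' : Set S) = A := by
    intro A A' hA hA'
    ext p
    constructor
    · rintro ⟨i, hi, rfl⟩
      exact (hA' i).1 hi
    · intro hp
      exact ⟨⟨p, Finset.mem_coe.1 (hA hp)⟩, (hA' _).2 hp, rfl⟩
  rw [HM, Meet, key A A' hA hA', key B B' hB hB']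

/-- (1) Every self-dual set of `2 d + 2` points of `ℝ^d`, `d ≥ 2`, has a partition of tolerance one.
(2) Every self-associated set of `2 d + 2` points of `ℝ^d` in general position is self-dual. -/
theorem result (d : ℕ) (hd : 2 ≤ d) (S : Finset (EuclideanSpace ℝ (Fin d)))
    (hS : S.card = 2 * d + 2) :
    (IsSelfDual S → HasTolerantPartition S) ∧
      (IsGeneral S → IsSelfAssociated S → IsSelfDual S) := by
  classical
  have hinj : Function.Injective fun i : S => (i : EuclideanSpace ℝ (Fin d)) :=
    Subtype.val_injective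
  have hcard : Fintype.card S = 2 * d + 2 := by rw [Fintype.card_coe, hS]
  have hidx : ∀ (A : Set (EuclideanSpace ℝ (Fin d))) (i : S),
      i ∈ idx S A ↔ (i : EuclideanSpace ℝ (Fin d)) ∈ A := fun A i => by simp [idx]
  constructor
  · rintro ⟨G, hG, h⟩
    have hG' : ∀ A : Finset S, HM (fun i : S => (i : EuclideanSpace ℝ (Fin d))) A Aᶜ ↔
        ¬ HM (fun i : S => (i : EuclideanSpace ℝ (Fin d))) (symmDiff A (idx S G))
          (symmDiff A (idx S G))ᶜ := by
      intro A
      set A0 : Set (EuclideanSpace ℝ (Fin d)) :=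
        (fun i : S => (i : EuclideanSpace ℝ (Fin d))) '' (A : Set S) with hA0
      have hA0S : A0 ⊆ S := by
        rintro p ⟨i, -, rfl⟩
        exact i.2
      have hmem : ∀ i : S, i ∈ A ↔ (i : EuclideanSpace ℝ (Fin d)) ∈ A0 := by
        intro i
        constructor
        · exact fun hi => ⟨i, hi, rfl⟩
        · rintro ⟨j, hj, hji⟩
          rwa [← hinj hji]
      have hsd : symmDiff A0 G ⊆ S := by
        intro p hp
        rcases Set.mem_symmDiff.1 hp with hp | hp
        · exact hA0S hp.1
        · exact hG hp.1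
      have h1 := h A0 hA0S
      rw [← hm_iff (A' := A) (B' := Aᶜ) hA0S Set.sdiff_subset hmem (fun i => by
          rw [Finset.mem_compl, hmem i]
          exact ⟨fun hh => ⟨i.2, hh⟩, fun hh => hh.2⟩),
        ← hm_iff (A' := symmDiff A (idx S G)) (B' := (symmDiff A (idx S G))ᶜ) hsd Set.sdiff_subset
          (fun i => by
            rw [Finset.mem_symmDiff, Set.mem_symmDiff, hmem i, hidx])
          (fun i => by
            rw [Finset.mem_compl, Finset.mem_symmDiff, hmem i, hidx]
            refine ⟨fun hh => ⟨i.2, fun h' => hh (Set.mem_symmDiff.1 h')⟩, fun hh h' =>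
              hh.2 (Set.mem_symmDiff.2 h')⟩)] at h1
      exact h1
    obtain ⟨A, hA⟩ := exists_tolerant hinj hd hcard hG'
    set A0 : Set (EuclideanSpace ℝ (Fin d)) :=
      (fun i : S => (i : EuclideanSpace ℝ (Fin d))) '' (A : Set S) with hA0
    have hA0S : A0 ⊆ S := by
      rintro p ⟨i, -, rfl⟩
      exact i.2
    have hmem : ∀ i : S, i ∈ A ↔ (i : EuclideanSpace ℝ (Fin d)) ∈ A0 := by
      intro i
      constructor
      · exact fun hi => ⟨i, hi, rfl⟩
      · rintro ⟨j, hj, hji⟩
        rwa [← hinj hji]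
    refine ⟨A0, hA0S, fun x hx => ?_⟩
    refine (hm_iff (A' := A.erase ⟨x, hx⟩) (B' := Aᶜ.erase ⟨x, hx⟩)
      (Set.sdiff_subset.trans hA0S) (Set.sdiff_subset.trans Set.sdiff_subset) (fun i => ?_)
      (fun i => ?_)).1 (hA ⟨x, hx⟩)
    · rw [Finset.mem_erase, hmem i]
      constructor
      · rintro ⟨h1, h2⟩
        exact ⟨h2, fun hh => h1 (Subtype.ext (Set.mem_singleton_iff.1 hh))⟩
      · rintro ⟨h1, h2⟩
        exact ⟨fun hh => h2 (by rw [hh]; exact Set.mem_singleton _), h1⟩
    · rw [Finset.mem_erase, Finset.mem_compl, hmem i]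
      constructor
      · rintro ⟨h1, h2⟩
        exact ⟨⟨i.2, h2⟩, fun hh => h1 (Subtype.ext (Set.mem_singleton_iff.1 hh))⟩
      · rintro ⟨⟨_, h1⟩, h2⟩
        exact ⟨fun hh => h2 (by rw [hh]; exact Set.mem_singleton _), h1⟩
  · rintro hgen ⟨c, ⟨p0, hp0, hcp0⟩, hc⟩
    have hx : Generic fun i : S => (i : EuclideanSpace ℝ (Fin d)) := by
      intro f hf hdet
      obtain ⟨w, hwne, hw⟩ := Matrix.exists_vecMul_eq_zero_iff.2 hdet
      apply hwne
      have hT : (Finset.univ.image fun r => (f r : EuclideanSpace ℝ (Fin d))) ⊆ S := by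
        intro p hp
        obtain ⟨r, -, rfl⟩ := Finset.mem_image.1 hp
        exact (f r).2
      have hinjf : Function.Injective fun r => (f r : EuclideanSpace ℝ (Fin d)) :=
        fun r r' hh => hf (hinj hh)
      have hai := hgen _ hT (by
        rw [Finset.card_image_of_injective _ hinjf, Finset.card_univ, Fintype.card_fin])
      have hai' : AffineIndependent ℝ fun r => (f r : EuclideanSpace ℝ (Fin d)) := by
        let e : Fin (d + 1) ↪ (Finset.univ.image fun r => (f r : EuclideanSpace ℝ (Fin d)) :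
            Finset (EuclideanSpace ℝ (Fin d))) :=
          ⟨fun r => ⟨f r, Finset.mem_image_of_mem _ (Finset.mem_univ r)⟩, fun r r' hh => by
            have h2 := congrArg Subtype.val hh
            exact hinjf h2⟩
        exact hai.comp_embedding e
      rw [affineIndependent_iff] at hai'
      have h0 : ∀ k, ∑ r, w r * lift ((f r : EuclideanSpace ℝ (Fin d))) k = 0 := by
        intro k
        have := congrFun hw k
        rw [Matrix.vecMul, dotProduct] at this
        simpa using this
      have h1 : Finset.univ.sum w = 0 := by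
        have := h0 0
        simpa [lift] using this
      have h2 : ∑ r, w r • (f r : EuclideanSpace ℝ (Fin d)) = 0 := by
        ext k
        have := h0 k.succ
        simpa [lift] using this
      funext r
      exact hai' Finset.univ w h1 h2 r (Finset.mem_univ _)
    obtain ⟨G, hG⟩ := selfDual_of_assoc hinj hx (by omega) hcard
      (c := fun i : S => c i) ⟨⟨p0, hp0⟩, hcp0⟩ (by
      rintro _ ⟨a, rfl⟩ _ ⟨b, rfl⟩
      -- the affine functions with coefficients `a`, `b`
      let F : (Fin (d + 1) → ℝ) → (EuclideanSpace ℝ (Fin d) →ᵃ[ℝ] ℝ) := fun a =>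
        { toFun := fun p => ∑ k, a k * lift p k
          linear :=
            { toFun := fun p => ∑ k : Fin d, a k.succ * p k
              map_add' := fun p q => by
                simp only [PiLp.add_apply, mul_add, Finset.sum_add_distrib]
              map_smul' := fun t p => by
                simp only [PiLp.smul_apply, smul_eq_mul, RingHom.id_apply, Finset.mul_sum]
                exact Finset.sum_congr rfl fun k _ => by ring }
          map_vadd' := fun p v => by
            simp only [Fin.sum_univ_succ, lift, Fin.cons_zero, Fin.cons_succ, vadd_eq_add,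
              PiLp.add_apply, mul_add, Finset.sum_add_distrib, LinearMap.coe_mk, AddHom.coe_mk]
            ring }
      have h1 := hc (F a) (F b)
      rw [← Finset.sum_coe_sort] at h1
      exact h1)
    refine ⟨(fun i : S => (i : EuclideanSpace ℝ (Fin d))) '' (G : Set S), ?_, fun A hA => ?_⟩
    · rintro p ⟨i, -, rfl⟩
      exact i.2
    · have hmemG : ∀ i : S, (i : EuclideanSpace ℝ (Fin d)) ∈
          (fun i : S => (i : EuclideanSpace ℝ (Fin d))) '' (G : Set S) ↔ i ∈ G := by
        intro i
        constructor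
        · rintro ⟨j, hj, hji⟩
          rwa [← hinj hji]
        · exact fun hi => ⟨i, hi, rfl⟩
      have hsd : symmDiff A ((fun i : S => (i : EuclideanSpace ℝ (Fin d))) '' (G : Set S)) ⊆ S := by
        intro p hp
        rcases Set.mem_symmDiff.1 hp with hp | hp
        · exact hA hp.1
        · obtain ⟨i, -, rfl⟩ := hp.1
          exact i.2
      have h1 := hG (idx S A)
      set G0 : Set (EuclideanSpace ℝ (Fin d)) :=
        (fun i : S => (i : EuclideanSpace ℝ (Fin d))) '' (G : Set S) with hG0
      have e1 : HM (fun i : S => (i : EuclideanSpace ℝ (Fin d))) (idx S A) (idx S A)ᶜ ↔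
          Meet A (S \ A) := hm_iff hA Set.sdiff_subset (hidx A) (fun i => by
        rw [Finset.mem_compl, hidx]
        exact ⟨fun hh => ⟨i.2, hh⟩, fun hh => hh.2⟩)
      have hm : ∀ i : S, i ∈ symmDiff (idx S A) G ↔
          (i : EuclideanSpace ℝ (Fin d)) ∈ symmDiff A G0 := by
        intro i
        rw [Finset.mem_symmDiff, Set.mem_symmDiff, hidx, hmemG]
      have e2 : HM (fun i : S => (i : EuclideanSpace ℝ (Fin d))) (symmDiff (idx S A) G)
          (symmDiff (idx S A) G)ᶜ ↔ Meet (symmDiff A G0) (S \ symmDiff A G0) :=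
        hm_iff hsd Set.sdiff_subset hm (fun i => by
          rw [Finset.mem_compl, hm]
          exact ⟨fun hh => ⟨i.2, hh⟩, fun hh => hh.2⟩)
      rw [e1, e2] at h1
      exact h1

end Pool.Agent.Results.MP_e211d6_co.SelfDual
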